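import Pool.Agent.U548.AC.Pos

/-!
# The matrix `mat n` is complex symmetric and irreducible
-/

set_option autoImplicit false

open scoped ComplexConjugate

namespace Pool.Agent.U548.AC

lemma mat_symm (n : ℕ) : (mat n).IsSymm := by
  ext i j
  simp only [mat, Matrix.transpose_apply, Matrix.of_apply]
  rw [show (j : ℕ) + i = i + j by ring]
  ring

/-- the Jordan block -/
noncomputable def JJ (n : ℕ) : Matrix (Fin n) (Fin n) ℂ := Matrix.of fun i j =>
  if (i : ℕ) = j + 1 then 1 else 0

/-- the reversal -/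
noncomputable def RR (n : ℕ) : Matrix (Fin n) (Fin n) ℂ := Matrix.of fun i j =>
  if j = Fin.rev i then 1 else 0

lemma RR_mul (n : ℕ) (A : Matrix (Fin n) (Fin n) ℂ) (i j : Fin n) :
    (RR n * A) i j = A (Fin.rev i) j := by
  simp [Matrix.mul_apply, RR]

lemma mul_RR (n : ℕ) (A : Matrix (Fin n) (Fin n) ℂ) (i j : Fin n) :
    (A * RR n) i j = A i (Fin.rev j) := by
  have h : ∀ l : Fin n, (j = Fin.rev l) ↔ (l = Fin.rev j) := fun l => by
    constructor
    · rintro rfl
      rw [Fin.rev_rev]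
    · rintro rfl
      rw [Fin.rev_rev]
  simp [Matrix.mul_apply, RR, h]

/-- the unitary matrix -/
noncomputable def VV (n : ℕ) : Matrix (Fin n) (Fin n) ℂ := cp • (1 : Matrix _ _ ℂ) + cm • RR n

/-- its adjoint -/
noncomputable def WW (n : ℕ) : Matrix (Fin n) (Fin n) ℂ := cm • (1 : Matrix _ _ ℂ) + cp • RR n

lemma RR_sq (n : ℕ) : RR n * RR n = 1 := by
  ext i j
  rw [RR_mul]
  simp only [RR, Matrix.of_apply, Fin.rev_rev, Matrix.one_apply]
  by_cases h : i = j
  · rw [if_pos h, if_pos h.symm]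
  · rw [if_neg h, if_neg (fun h2 => h h2.symm)]

lemma RR_herm (n : ℕ) : (RR n).conjTranspose = RR n := by
  ext i j
  simp only [RR, Matrix.conjTranspose_apply, Matrix.of_apply]
  have h : (i = Fin.rev j) ↔ (j = Fin.rev i) := by
    constructor
    · rintro rfl
      rw [Fin.rev_rev]
    · rintro rfl
      rw [Fin.rev_rev]
  simp only [h]
  split_ifs <;> simp

lemma VV_star (n : ℕ) : (VV n).conjTranspose = WW n := by
  unfold VV WW
  rw [Matrix.conjTranspose_add, Matrix.conjTranspose_smul, Matrix.conjTranspose_smul, RR_herm,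
    Matrix.conjTranspose_one]
  change conj cp • _ + conj cm • _ = _
  rw [conj_cp, conj_cm]

lemma WW_star (n : ℕ) : (WW n).conjTranspose = VV n := by
  rw [← VV_star, Matrix.conjTranspose_conjTranspose]

lemma VV_WW (n : ℕ) : VV n * WW n = 1 := by
  unfold VV WW
  rw [add_mul, mul_add, mul_add, smul_mul_smul_comm, smul_mul_smul_comm, smul_mul_smul_comm,
    smul_mul_smul_comm, RR_sq, mul_one, mul_one, one_mul, cp_cm, cp_sq, cm_sq, mul_comm cm cp, cp_cm]
  module

lemma WW_VV (n : ℕ) : WW n * VV n = 1 := by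
  have h := VV_WW n
  exact mul_eq_one_comm.1 h

lemma mat_eq (n : ℕ) : mat n = VV n * JJ n * WW n := by
  have h : VV n * JJ n * WW n = (1 / 2 : ℂ) • JJ n + (Complex.I / 2) • (JJ n * RR n) +
      (-Complex.I / 2) • (RR n * JJ n) + (1 / 2 : ℂ) • (RR n * JJ n * RR n) := by
    unfold VV WW
    simp only [add_mul, mul_add, smul_mul_assoc, mul_smul_comm, one_mul, mul_one]
    rw [smul_add, smul_add, smul_smul, smul_smul, smul_smul, smul_smul, cp_cm, cp_sq, cm_sq,
      mul_comm cm cp, cp_cm]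
    abel
  rw [h]
  ext i j
  have e1 : (RR n * JJ n * RR n) i j = JJ n (Fin.rev i) (Fin.rev j) := by
    rw [mul_RR, RR_mul]
  simp only [Matrix.add_apply, Matrix.smul_apply, smul_eq_mul]
  rw [e1, mul_RR, RR_mul]
  simp only [mat, JJ, Matrix.of_apply, Fin.val_rev]
  have hi := i.2
  have hj := j.2
  have a1 : (n - ((i : ℕ) + 1) = n - ((j : ℕ) + 1) + 1) ↔ (j : ℕ) = i + 1 := by omega
  have a2 : ((i : ℕ) = n - ((j : ℕ) + 1) + 1) ↔ (i : ℕ) + j = n := by omega
  have a3 : (n - ((i : ℕ) + 1) = (j : ℕ) + 1) ↔ (i : ℕ) + j + 2 = n := by omega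
  simp only [a1, a2, a3]
  split_ifs <;> ring

lemma sumJ {n : ℕ} (f : Fin n → ℂ) (k : ℕ) :
    ∑ l, f l * (if (l : ℕ) = k then 1 else 0) = if h : k < n then f ⟨k, h⟩ else 0 := by
  by_cases h : k < n
  · rw [dif_pos h, Finset.sum_eq_single ⟨k, h⟩]
    · simp
    · intro b _ hb
      rw [if_neg, mul_zero]
      intro h2
      exact hb (Fin.ext h2)
    · intro h2
      exact absurd (Finset.mem_univ _) h2
  · rw [dif_neg h]
    refine Finset.sum_eq_zero fun l _ => ?_
    rw [if_neg, mul_zero]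
    have := l.2
    omega

lemma commute_J {n : ℕ} (Y : Matrix (Fin n) (Fin n) ℂ) (h1 : Y * JJ n = JJ n * Y)
    (h2 : Y * (JJ n).transpose = (JJ n).transpose * Y) : ∃ c : ℂ, Y = c • 1 := by
  set y : ℕ → ℕ → ℂ := fun a b => if h : a < n ∧ b < n then Y ⟨a, h.1⟩ ⟨b, h.2⟩ else 0 with hy
  have y_eq : ∀ i j : Fin n, Y i j = y i j := by
    intro i j
    simp only [hy]
    rw [dif_pos ⟨i.2, j.2⟩]
  -- relations
  have r1 : ∀ a b, a < n → b < n → y a (b + 1) = if 1 ≤ a then y (a - 1) b else 0 := by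
    intro a b ha hb
    have e := congrFun (congrFun h1 ⟨a, ha⟩) ⟨b, hb⟩
    rw [Matrix.mul_apply, Matrix.mul_apply] at e
    have e1 : ∑ l, Y ⟨a, ha⟩ l * JJ n l ⟨b, hb⟩ = y a (b + 1) := by
      simp only [JJ, Matrix.of_apply]
      rw [sumJ]
      simp only [hy]
      by_cases h : b + 1 < n
      · rw [dif_pos h, dif_pos ⟨ha, h⟩]
      · rw [dif_neg h, dif_neg (fun h' => h h'.2)]
    have e2 : ∑ l, JJ n ⟨a, ha⟩ l * Y l ⟨b, hb⟩ = if 1 ≤ a then y (a - 1) b else 0 := by
      simp only [JJ, Matrix.of_apply]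
      by_cases h : 1 ≤ a
      · rw [if_pos h]
        have e3 : ∀ l : Fin n, (a = (l : ℕ) + 1) ↔ (l : ℕ) = a - 1 := fun l => by omega
        simp only [e3]
        have e4 : ∀ l : Fin n, (if (l : ℕ) = a - 1 then (1 : ℂ) else 0) * Y l ⟨b, hb⟩ =
            Y l ⟨b, hb⟩ * (if (l : ℕ) = a - 1 then (1 : ℂ) else 0) := fun l => mul_comm _ _
        simp only [e4]
        rw [sumJ, dif_pos (show a - 1 < n by omega)]
        simp only [hy]
        rw [dif_pos ⟨(show a - 1 < n by omega), hb⟩]
      · rw [if_neg h]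
        refine Finset.sum_eq_zero fun l _ => ?_
        rw [if_neg (by omega), zero_mul]
    rw [← e1, ← e2]
    exact e
  have r2 : ∀ a b, a < n → b < n → y (a + 1) b = if 1 ≤ b then y a (b - 1) else 0 := by
    intro a b ha hb
    have e := congrFun (congrFun h2 ⟨a, ha⟩) ⟨b, hb⟩
    rw [Matrix.mul_apply, Matrix.mul_apply] at e
    have e1 : ∑ l, (JJ n).transpose ⟨a, ha⟩ l * Y l ⟨b, hb⟩ = y (a + 1) b := by
      simp only [JJ, Matrix.of_apply, Matrix.transpose_apply]
      have e4 : ∀ l : Fin n, (if (l : ℕ) = a + 1 then (1 : ℂ) else 0) * Y l ⟨b, hb⟩ =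
          Y l ⟨b, hb⟩ * (if (l : ℕ) = a + 1 then (1 : ℂ) else 0) := fun l => mul_comm _ _
      simp only [e4]
      rw [sumJ]
      simp only [hy]
      by_cases h : a + 1 < n
      · rw [dif_pos h, dif_pos ⟨h, hb⟩]
      · rw [dif_neg h, dif_neg (fun h' => h h'.1)]
    have e2 : ∑ l, Y ⟨a, ha⟩ l * (JJ n).transpose l ⟨b, hb⟩ = if 1 ≤ b then y a (b - 1) else 0 := by
      simp only [JJ, Matrix.of_apply, Matrix.transpose_apply]
      by_cases h : 1 ≤ b
      · rw [if_pos h]
        have e3 : ∀ l : Fin n, (b = (l : ℕ) + 1) ↔ (l : ℕ) = b - 1 := fun l => by omega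
        simp only [e3]
        rw [sumJ, dif_pos (show b - 1 < n by omega)]
        simp only [hy]
        rw [dif_pos ⟨ha, (show b - 1 < n by omega)⟩]
      · rw [if_neg h]
        refine Finset.sum_eq_zero fun l _ => ?_
        rw [if_neg (by omega), mul_zero]
    rw [← e1, ← e2]
    exact e.symm
  have key : ∀ a b, a < n → b < n → y a b = if a = b then y 0 0 else 0 := by
    intro a
    induction a with
    | zero =>
      intro b ha hb
      rcases b with _ | b
      · simp
      · rw [r1 0 b ha (by omega)]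
        simp
    | succ a ih =>
      intro b ha hb
      rcases b with _ | b
      · rw [r2 a 0 (by omega) hb]
        simp
      · rw [r1 (a + 1) b ha (by omega), if_pos (by omega), Nat.add_sub_cancel,
          ih b (by omega) (by omega)]
        simp
  refine ⟨y 0 0, ?_⟩
  ext i j
  rw [y_eq, key i j i.2 j.2]
  simp only [Matrix.smul_apply, Matrix.one_apply, smul_eq_mul, Fin.ext_iff]
  split_ifs <;> ring

theorem irreducible (n : ℕ) (X : Matrix (Fin n) (Fin n) ℂ) (h1 : X * mat n = mat n * X)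
    (h2 : X * (mat n).conjTranspose = (mat n).conjTranspose * X) : ∃ c : ℂ, X = c • 1 := by
  have hJt : (JJ n).conjTranspose = (JJ n).transpose := by
    ext i j
    simp only [JJ, Matrix.conjTranspose_apply, Matrix.transpose_apply, Matrix.of_apply]
    split_ifs <;> simp
  have hM : (mat n).conjTranspose = VV n * (JJ n).transpose * WW n := by
    rw [mat_eq, Matrix.conjTranspose_mul, Matrix.conjTranspose_mul, VV_star, WW_star, hJt,
      ← mul_assoc]
  have hVW := VV_WW n
  have hWV := WW_VV n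
  have gen : ∀ N : Matrix (Fin n) (Fin n) ℂ, X * (VV n * N * WW n) = VV n * N * WW n * X →
      (WW n * X * VV n) * N = N * (WW n * X * VV n) := by
    intro N hN
    calc (WW n * X * VV n) * N = (WW n * X * VV n) * N * (WW n * VV n) := by rw [hWV, mul_one]
      _ = WW n * (X * (VV n * N * WW n)) * VV n := by noncomm_ring
      _ = WW n * (VV n * N * WW n * X) * VV n := by rw [hN]
      _ = (WW n * VV n) * N * (WW n * X * VV n) := by noncomm_ring
      _ = N * (WW n * X * VV n) := by rw [hWV, one_mul]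
  obtain ⟨c, hc⟩ := commute_J (WW n * X * VV n)
    (gen _ (by rw [← mat_eq]; exact h1)) (gen _ (by rw [← hM]; exact h2))
  refine ⟨c, ?_⟩
  calc X = (VV n * WW n) * X * (VV n * WW n) := by rw [hVW, one_mul, mul_one]
    _ = VV n * (WW n * X * VV n) * WW n := by noncomm_ring
    _ = VV n * (c • 1) * WW n := by rw [hc]
    _ = c • 1 := by rw [mul_smul_comm, mul_one, smul_mul_assoc, hVW]

end Pool.Agent.U548.AC
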