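import Pool.Agent.R307.TtoDef3

/-!
# Modified Aleksandrov-Clark bases of model spaces: definitions
-/

set_option autoImplicit false

open MeasureTheory
open scoped ComplexConjugate

namespace Pool.Agent.U548.AC

open Pool.Agent.R307.Ttz

/-- The coordinate function `z` of the unit circle. -/
noncomputable def zc (t : AddCircle (1 : ℝ)) : ℂ := fourier 1 t

/-- `e = (e_1, …, e_n)` is a modified Aleksandrov-Clark basis of the model space `K_Θ`, for the
parameter `α` of modulus one and the points `ζ_1, …, ζ_n` of the unit circle: `k_j` is the boundary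
kernel `(1 - ᾱ Θ(z)) / (1 - ζ̄_j z)` (it is required to be in `L²`, which forces `Θ(ζ_j) = α`),
`w_j² = α ζ̄_j`, `e_j = w_j k_j / ‖k_j‖`, and `e` is an orthonormal basis of `K_Θ`. -/
def IsModAC {n : ℕ} (Θ : L2) (e : Fin n → L2) : Prop :=
  ∃ (α : ℂ) (ζ w : Fin n → ℂ) (k : Fin n → L2),
    ‖α‖ = 1 ∧ (∀ j, ‖ζ j‖ = 1) ∧ Function.Injective ζ ∧
    (∀ j, AE (fun t => fn (k j) t = (1 - conj α * fn Θ t) / (1 - conj (ζ j) * zc t))) ∧
    (∀ j, w j ^ 2 = α * conj (ζ j)) ∧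
    (∀ j, e j = (w j / ((‖k j‖ : ℝ) : ℂ)) • k j) ∧
    (∀ j, InModel Θ (e j)) ∧
    (∀ i j, ip (e i) (e j) = if i = j then 1 else 0) ∧
    ∀ f : L2, InModel Θ f → ∃ c : Fin n → ℂ, f = ∑ j, c j • e j

/-- `M` is the matrix `[⟨A e_j, e_i⟩]` of a truncated Toeplitz operator `A`, on the model space
`K_Θ` of some inner function `Θ` and with some symbol `φ ∈ L²`, with respect to some modified
Aleksandrov-Clark basis `e` of `K_Θ`. -/
def IsModACMatrix {n : ℕ} (M : Matrix (Fin n) (Fin n) ℂ) : Prop :=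
  ∃ Θ φ : L2, IsInner Θ ∧ ∃ A : L2 → L2, IsTTO Θ φ A ∧
    ∃ e : Fin n → L2, IsModAC Θ e ∧ ∀ i j, M i j = ip (e i) (A (e j))

/-- `M`, acting on `ℂⁿ`, is unitarily equivalent to the compressed shift on the model space of
`zⁿ`, that is, to the truncated Toeplitz operator on `K_Θ`, `Θ = zⁿ`, with symbol `φ = z`. -/
def UECompressedShift {n : ℕ} (M : Matrix (Fin n) (Fin n) ℂ) : Prop :=
  ∃ Θ φ : L2, AE (fun t => fn Θ t = zc t ^ n) ∧ AE (fun t => fn φ t = zc t) ∧ IsInner Θ ∧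
    ∃ A : L2 → L2, IsTTO Θ φ A ∧ ∃ U : EuclideanSpace ℂ (Fin n) → L2, UnitaryOnto Θ U ∧
      ∀ x : EuclideanSpace ℂ (Fin n), U (WithLp.toLp 2 (M.mulVec (WithLp.ofLp x))) = A (U x)

/-- The `n × n` matrix with the entries
`M_{ij} = ([i = j + 1] + [j = i + 1] + i [i + j = n] - i [i + j = n - 2]) / 2`, `0 ≤ i, j < n`. -/
noncomputable def mat (n : ℕ) : Matrix (Fin n) (Fin n) ℂ := Matrix.of fun i j =>
  ((if (i : ℕ) = j + 1 then 1 else 0) + (if (j : ℕ) = i + 1 then 1 else 0) +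
    (if (i : ℕ) + j = n then Complex.I else 0) -
    (if (i : ℕ) + j + 2 = n then Complex.I else 0)) / 2

end Pool.Agent.U548.AC
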