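import Pool.Agent.U548.AC.Defs
import Pool.Agent.R307.Tto7

/-!
# Matrices of truncated Toeplitz operators in modified Aleksandrov-Clark bases
-/

set_option autoImplicit false

open MeasureTheory
open scoped ComplexConjugate

namespace Pool.Agent.U548.AC

open Pool.Agent.R307 Pool.Agent.R307.Ttz

instance noAtoms_hm : NullSingletonClass Tto.hm := by
  refine ⟨fun x => ?_⟩
  have h1 := AddCircle.volume_eq_smul_haarAddCircle (T := (1 : ℝ))
  rw [ENNReal.ofReal_one, one_smul] at h1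
  change (AddCircle.haarAddCircle : Measure (AddCircle (1 : ℝ))) {x} = 0
  rw [← h1]
  have h2 := AddCircle.volume_closedBall (T := (1 : ℝ)) (x := x) 0
  rw [Metric.closedBall_zero] at h2
  rw [h2]
  simp

lemma zc_ne (ζ : ℂ) (hζ : ‖ζ‖ = 1) : ∀ᵐ t ∂Tto.hm, 1 - conj ζ * zc t ≠ 0 := by
  have h1 : ∀ t s : AddCircle (1 : ℝ), 1 - conj ζ * zc t = 0 → 1 - conj ζ * zc s = 0 → t = s := by
    intro t s ht hs
    have h2 : zc t = zc s := by
      have h3 : conj ζ ≠ 0 := by
        intro h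
        have : ζ = 0 := by simpa using h
        rw [this, norm_zero] at hζ
        exact zero_ne_one hζ
      exact mul_left_cancel₀ h3 (by linear_combination hs - ht)
    unfold zc at h2
    rw [fourier_one, fourier_one] at h2
    exact AddCircle.injective_toCircle (one_ne_zero) (Subtype.ext h2)
  have h4 : {t : AddCircle (1 : ℝ) | ¬ (1 - conj ζ * zc t ≠ 0)}.Subsingleton := by
    intro t ht s hs
    exact h1 t s (not_not.1 ht) (not_not.1 hs)
  exact h4.measure_zero _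

lemma ptw (α ζi ζj Θ z ki kj : ℂ) (hα : ‖α‖ = 1) (hi : ‖ζi‖ = 1) (hz : ‖z‖ = 1) (hΘ : ‖Θ‖ = 1)
    (hni : 1 - conj ζi * z ≠ 0) (hnj : 1 - conj ζj * z ≠ 0)
    (h1 : ki = (1 - conj α * Θ) / (1 - conj ζi * z))
    (h2 : kj = (1 - conj α * Θ) / (1 - conj ζj * z)) :
    (conj ζi - conj ζj) * (conj ki * kj) =
      α * conj ζi * (conj Θ * (1 - conj α * Θ) * ki - conj Θ * (1 - conj α * Θ) * kj) := by
  have cα : conj α * α = 1 := by
    rw [← Complex.normSq_eq_conj_mul_self, Complex.normSq_eq_norm_sq, hα]; norm_num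
  have ci : conj ζi * ζi = 1 := by
    rw [← Complex.normSq_eq_conj_mul_self, Complex.normSq_eq_norm_sq, hi]; norm_num
  have cz : conj z * z = 1 := by
    rw [← Complex.normSq_eq_conj_mul_self, Complex.normSq_eq_norm_sq, hz]; norm_num
  have cΘ : conj Θ * Θ = 1 := by
    rw [← Complex.normSq_eq_conj_mul_self, Complex.normSq_eq_norm_sq, hΘ]; norm_num
  have e1 : ki * (1 - conj ζi * z) = 1 - conj α * Θ := by
    rw [h1, div_mul_cancel₀ _ hni]
  have e2 : kj * (1 - conj ζj * z) = 1 - conj α * Θ := by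
    rw [h2, div_mul_cancel₀ _ hnj]
  have e3 : conj ki * (1 - ζi * conj z) = 1 - α * conj Θ := by
    have := congrArg conj e1
    simpa using this
  -- conj ki = α conj ζi conj Θ z ki
  have e4 : conj ki = α * conj ζi * conj Θ * z * ki := by
    apply mul_right_cancel₀ hni
    have h5 : 1 - conj ζi * z = -(conj ζi * z) * (1 - ζi * conj z) := by
      linear_combination (-(conj z * z)) * ci - cz
    have h6 : 1 - α * conj Θ = -(α * conj Θ) * (1 - conj α * Θ) := by
      linear_combination (-(conj Θ * Θ)) * cα - cΘ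
    calc conj ki * (1 - conj ζi * z) = -(conj ζi * z) * (conj ki * (1 - ζi * conj z)) := by
          rw [h5]; ring
      _ = -(conj ζi * z) * (-(α * conj Θ) * (1 - conj α * Θ)) := by rw [e3, h6]
      _ = -(conj ζi * z) * (-(α * conj Θ) * (ki * (1 - conj ζi * z))) := by rw [e1]
      _ = α * conj ζi * conj Θ * z * ki * (1 - conj ζi * z) := by ring
  rw [e4]
  have e5 : (conj ζi - conj ζj) * z * (ki * kj) = (1 - conj α * Θ) * (ki - kj) := by
    linear_combination ki * e2 - kj * e1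
  linear_combination (α * conj ζi * conj Θ) * e5

lemma finDim {n : ℕ} {Θ : Tto.L2} (e : Fin n → Tto.L2)
    (h : ∀ f : Tto.L2, f ∈ Tto.model Θ → ∃ c : Fin n → ℂ, f = ∑ j, c j • e j) :
    FiniteDimensional ℂ (Tto.model Θ) := by
  have h1 : Tto.model Θ ≤ Submodule.span ℂ (Set.range e) := by
    intro f hf
    obtain ⟨c, rfl⟩ := h f hf
    exact Submodule.sum_mem _ fun j _ => Submodule.smul_mem _ _ (Submodule.subset_span ⟨j, rfl⟩)
  haveI : FiniteDimensional ℂ (Submodule.span ℂ (Set.range e)) :=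
    FiniteDimensional.span_of_finite ℂ (Set.finite_range e)
  exact Submodule.finiteDimensional_of_le h1

lemma conj_mul_self' {z : ℂ} (h : ‖z‖ = 1) : conj z * z = 1 := by
  rw [← Complex.normSq_eq_conj_mul_self, Complex.normSq_eq_norm_sq, h]; norm_num

theorem core {n : ℕ} {M : Matrix (Fin n) (Fin n) ℂ} (Θ φ : Tto.L2) (hΘ' : Tto.IsInner Θ)
    (A : Tto.L2 → Tto.L2)
    (hA : ∀ f p : Tto.L2, f ∈ Tto.model Θ → (∃ C : ℝ, ∀ᵐ t ∂Tto.hm, ‖f t‖ ≤ C) →
      (∀ᵐ t ∂Tto.hm, p t = φ t * f t) → ∀ g : Tto.L2, g ∈ Tto.model Θ →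
        inner ℂ g p = (inner ℂ g (A f) : ℂ))
    (e : Fin n → Tto.L2) (α : ℂ) (ζ w : Fin n → ℂ) (k : Fin n → Tto.L2) (hα : ‖α‖ = 1)
    (hζ : ∀ j, ‖ζ j‖ = 1) (hinj : Function.Injective ζ)
    (hk : ∀ j, ∀ᵐ t ∂Tto.hm, k j t = (1 - conj α * Θ t) / (1 - conj (ζ j) * zc t))
    (hw : ∀ j, w j ^ 2 = α * conj (ζ j))
    (he : ∀ j, e j = (w j / ((‖k j‖ : ℝ) : ℂ)) • k j)
    (hmem : ∀ j, e j ∈ Tto.model Θ)
    (hon : ∀ i j, inner ℂ (e i) (e j) = if i = j then (1 : ℂ) else 0)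
    (hsp : ∀ f : Tto.L2, f ∈ Tto.model Θ → ∃ c : Fin n → ℂ, f = ∑ j, c j • e j)
    (hMe : ∀ i j, M i j = inner ℂ (e i) (A (e j))) :
    ∃ (τ : Fin n → ℂ) (r : Fin n → Fin n → ℝ), ∀ i j, i ≠ j → r i j ≠ 0 ∧
      M i j = (r i j : ℂ) * (τ i - τ j) := by
  haveI : FiniteDimensional ℂ (Tto.model Θ) := finDim e hsp
  have hBd : ∀ j, Tto.Bd (e j) := fun j => Tto.all_Bd hΘ' ⟨e j, hmem j⟩
  have hw1 : ∀ j, ‖w j‖ = 1 := by
    intro j
    have h1 := congrArg norm (hw j)
    rw [norm_pow, norm_mul, hα, Complex.norm_conj, hζ j, mul_one] at h1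
    exact (pow_eq_one_iff_of_nonneg (norm_nonneg _) two_ne_zero).1 h1
  have hk0 : ∀ j, ‖k j‖ ≠ 0 := by
    intro j h0
    have h1 := hon j j
    rw [if_pos rfl, he j, h0] at h1
    simp at h1
  -- the functions conj (g k_j)
  have hh : ∀ j, ∃ h : Tto.L2, ∀ᵐ t ∂Tto.hm,
      h t = conj (conj (Θ t) * (1 - conj α * Θ t) * k j t) := by
    intro j
    have hmeas : AEStronglyMeasurable (fun t => conj (conj (Θ t) * (1 - conj α * Θ t))) Tto.hm := by
      have hm := Lp.aestronglyMeasurable Θ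
      have hc : Continuous (fun x : ℂ => conj (conj x * (1 - conj α * x))) := by
        have := Complex.continuous_conj
        fun_prop
      exact hc.comp_aestronglyMeasurable hm
    have hkc : MemLp (fun t => conj (k j t)) 2 Tto.hm := by
      refine (Lp.memLp (k j)).of_le (Complex.continuous_conj.comp_aestronglyMeasurable
        (Lp.aestronglyMeasurable (k j))) (Filter.Eventually.of_forall fun t => ?_)
      simp
    obtain ⟨h, hh⟩ := Tto.ex_mul _ hmeas 2 (by
      filter_upwards [Tto.bound_of_inner hΘ'] with t ht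
      rw [Complex.norm_conj, norm_mul, Complex.norm_conj]
      have ht' : ‖Θ t‖ ≤ 1 := ht
      have h3 : ‖1 - conj α * Θ t‖ ≤ 1 + ‖Θ t‖ := by
        refine (norm_sub_le _ _).trans (le_of_eq ?_)
        rw [norm_mul, Complex.norm_conj, hα, norm_one, one_mul]
      have h2 : ‖1 - conj α * Θ t‖ ≤ 2 := h3.trans ((add_le_add_right ht' 1).trans (by norm_num))
      calc ‖Θ t‖ * ‖1 - conj α * Θ t‖ ≤ 1 * 2 :=
            mul_le_mul ht' h2 (norm_nonneg _) zero_le_one
        _ = 2 := by norm_num) (hkc.toLp _)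
    refine ⟨h, ?_⟩
    filter_upwards [hh, hkc.coeFn_toLp] with t h1 h2
    rw [h1, h2, map_mul conj (conj (Θ t) * (1 - conj α * Θ t)) (k j t)]
  choose h hh using hh
  refine ⟨fun j => α * Complex.I * inner ℂ (h j) φ,
    fun i j => (w i * w j / (w i ^ 2 - w j ^ 2) / Complex.I / (‖k i‖ * ‖k j‖ : ℝ)).re, fun i j hij => ?_⟩
  have hne : w i ^ 2 - w j ^ 2 ≠ 0 := by
    rw [hw i, hw j]
    intro h0
    have hα0 : α ≠ 0 := by
      intro h; rw [h, norm_zero] at hα; exact zero_ne_one hα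
    have h1 : conj (ζ i) = conj (ζ j) := mul_left_cancel₀ hα0 (by linear_combination h0)
    exact hij (hinj ((starRingEnd ℂ).injective h1))
  have hwne : ∀ j, w j ≠ 0 := fun j h0 => by
    have := hw1 j
    rw [h0, norm_zero] at this
    exact zero_ne_one this
  have hrealc : conj (w i * w j / (w i ^ 2 - w j ^ 2) / Complex.I / (‖k i‖ * ‖k j‖ : ℝ)) =
      w i * w j / (w i ^ 2 - w j ^ 2) / Complex.I / (‖k i‖ * ‖k j‖ : ℝ) := by
    have h1 := conj_mul_self' (hw1 i)
    have h2 := conj_mul_self' (hw1 j)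
    have h3 : conj (w i * w j / (w i ^ 2 - w j ^ 2)) = -(w i * w j / (w i ^ 2 - w j ^ 2)) := by
      have hne' : conj (w i) ^ 2 - conj (w j) ^ 2 ≠ 0 := by
        intro h0
        apply hne
        have := congrArg conj h0
        simpa using this
      rw [map_div₀, map_mul, map_sub, map_pow, map_pow, ← neg_div, div_eq_div_iff hne' hne]
      linear_combination (conj (w j) * w i + w j * conj (w i)) * h1 -
        (conj (w i) * w j + w i * conj (w j)) * h2
    rw [map_div₀, map_div₀, h3, Complex.conj_I, Complex.conj_ofReal]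
    ring
  have hreal : (((w i * w j / (w i ^ 2 - w j ^ 2) / Complex.I / (‖k i‖ * ‖k j‖ : ℝ)).re : ℝ) : ℂ) =
      w i * w j / (w i ^ 2 - w j ^ 2) / Complex.I / (‖k i‖ * ‖k j‖ : ℝ) :=
    Complex.conj_eq_iff_re.1 hrealc
  have hkk : ((‖k i‖ * ‖k j‖ : ℝ) : ℂ) ≠ 0 := by
    exact_mod_cast mul_ne_zero (hk0 i) (hk0 j)
  refine ⟨?_, ?_⟩
  · intro h0
    beta_reduce at h0
    rw [h0, Complex.ofReal_zero] at hreal
    have h1 : w i * w j / (w i ^ 2 - w j ^ 2) / Complex.I / ((‖k i‖ * ‖k j‖ : ℝ) : ℂ) ≠ 0 :=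
      div_ne_zero (div_ne_zero (div_ne_zero (mul_ne_zero (hwne i) (hwne j)) hne) Complex.I_ne_zero) hkk
    exact h1 hreal.symm
  · beta_reduce
    rw [hreal]
    -- the product φ e_j
    obtain ⟨C, hC⟩ := hBd j
    obtain ⟨p, hp⟩ := Tto.ex_mul _ (Lp.aestronglyMeasurable (e j)) C hC φ
    have hp2 : ∀ᵐ t ∂Tto.hm, p t = φ t * e j t := by
      filter_upwards [hp] with t ht
      rw [ht, mul_comm]
    have h1 := hA (e j) p (hmem j) ⟨C, hC⟩ hp2 (e i) (hmem i)
    rw [hMe i j, ← h1]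
    -- compute
    set lam : ℂ := conj (w i) * w j / (‖k i‖ * ‖k j‖ : ℝ) * (α * conj (ζ i)) /
      (conj (ζ i) - conj (ζ j)) with hlam
    have hζne : conj (ζ i) - conj (ζ j) ≠ 0 := by
      intro h0
      exact hij (hinj ((starRingEnd ℂ).injective (sub_eq_zero.1 h0)))
    have h2 : inner ℂ (e i) p = inner ℂ (conj lam • (h i - h j)) φ := by
      rw [Tto.inner_eq, Tto.inner_eq]
      refine integral_congr_ae ?_
      have hki : ∀ᵐ t ∂Tto.hm, k i t = (1 - conj α * Θ t) / (1 - conj (ζ i) * zc t) := hk i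
      have hkj : ∀ᵐ t ∂Tto.hm, k j t = (1 - conj α * Θ t) / (1 - conj (ζ j) * zc t) := hk j
      have hei : ∀ᵐ t ∂Tto.hm, e i t = (w i / ((‖k i‖ : ℝ) : ℂ)) * k i t := by
        rw [he i]
        filter_upwards [Lp.coeFn_smul (w i / ((‖k i‖ : ℝ) : ℂ)) (k i)] with t ht
        rw [ht, Pi.smul_apply, smul_eq_mul]
      have hej : ∀ᵐ t ∂Tto.hm, e j t = (w j / ((‖k j‖ : ℝ) : ℂ)) * k j t := by
        rw [he j]
        filter_upwards [Lp.coeFn_smul (w j / ((‖k j‖ : ℝ) : ℂ)) (k j)] with t ht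
        rw [ht, Pi.smul_apply, smul_eq_mul]
      filter_upwards [hki, hkj, hei, hej, hp, hh i, hh j, hΘ'.2.1, zc_ne _ (hζ i), zc_ne _ (hζ j),
        Lp.coeFn_smul (conj lam) (h i - h j), Lp.coeFn_sub (h i) (h j)] with t a1 a2 a3 a4 a5 a6 a7
          a8 a9 a10 a11 a12
      have hz : ‖zc t‖ = 1 := Tto.norm_fourier 1 t
      have key := ptw α (ζ i) (ζ j) (Θ t) (zc t) (k i t) (k j t) hα (hζ i) hz a8 a9 a10 a1 a2
      have e0 : ∀ x y : ℂ, conj (conj lam * (conj x - conj y)) = lam * (x - y) := fun x y => by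
        rw [← map_sub, ← map_mul, Complex.conj_conj]
      rw [a5, a11, Pi.smul_apply, a12, Pi.sub_apply, a6, a7, a3, a4, smul_eq_mul, e0]
      have hki0 : ((‖k i‖ : ℝ) : ℂ) ≠ 0 := by exact_mod_cast hk0 i
      have hkj0 : ((‖k j‖ : ℝ) : ℂ) ≠ 0 := by exact_mod_cast hk0 j
      have e1 : conj (k i t) * k j t = (α * conj (ζ i)) / (conj (ζ i) - conj (ζ j)) *
          (conj (Θ t) * (1 - conj α * Θ t) * k i t - conj (Θ t) * (1 - conj α * Θ t) * k j t) := by
        rw [div_mul_eq_mul_div, eq_div_iff hζne, ← key]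
        ring
      have e2 : conj (w i / ((‖k i‖ : ℝ) : ℂ) * k i t) = conj (w i) / ((‖k i‖ : ℝ) : ℂ) * conj (k i t) := by
        rw [map_mul, map_div₀, Complex.conj_ofReal]
      rw [e2, hlam, Complex.ofReal_mul]
      calc conj (w i) / ((‖k i‖ : ℝ) : ℂ) * conj (k i t) *
            (w j / ((‖k j‖ : ℝ) : ℂ) * k j t * φ t)
          = conj (w i) / ((‖k i‖ : ℝ) : ℂ) * (w j / ((‖k j‖ : ℝ) : ℂ)) *
            (conj (k i t) * k j t) * φ t := by ring
        _ = _ := by
            rw [e1]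
            field_simp
    rw [h2, inner_smul_left, Complex.conj_conj, inner_sub_left]
    have e3 : lam = w i * w j / (w i ^ 2 - w j ^ 2) / Complex.I / ((‖k i‖ * ‖k j‖ : ℝ) : ℂ) *
        (α * Complex.I) := by
      have h1 := conj_mul_self' (hw1 i)
      have h5 : w i ^ 2 - w j ^ 2 = α * (conj (ζ i) - conj (ζ j)) := by
        rw [hw i, hw j]; ring
      have hα0 : α ≠ 0 := by
        intro h; rw [h, norm_zero] at hα; exact zero_ne_one hα
      have hI := Complex.I_ne_zero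
      rw [hlam, h5, ← hw i]
      field_simp
      linear_combination (w i * w j) * h1
    rw [e3]
    ring

/-- The off-diagonal entries of the matrix of a truncated Toeplitz operator with respect to a
modified Aleksandrov-Clark basis: `M_{ij} = r_{ij} (τ_i - τ_j)` with real numbers `r_{ij} ≠ 0`. -/
theorem structure_thm {n : ℕ} {M : Matrix (Fin n) (Fin n) ℂ} (hM : IsModACMatrix M) :
    ∃ (τ : Fin n → ℂ) (r : Fin n → Fin n → ℝ), ∀ i j, i ≠ j → r i j ≠ 0 ∧
      M i j = (r i j : ℂ) * (τ i - τ j) := by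
  obtain ⟨Θ, φ, hΘ, A, ⟨-, -, hA⟩, e, ⟨α, ζ, w, k, hα, hζ, hinj, hk, hw, he, hmem, hon, hsp⟩, hMe⟩ := hM
  exact core Θ φ hΘ A (fun f p h1 h2 h3 g h4 => hA f p h1 h2 h3 g h4) e α ζ w k hα hζ hinj hk hw he
    hmem hon hsp hMe

/-- Zeros of the matrix: if `M_{ij} = 0`, then `M_{il}` and `M_{jl}` are real multiples of a common
complex number, and both or none of them vanish. -/
theorem zero_pattern {n : ℕ} {M : Matrix (Fin n) (Fin n) ℂ} (hM : IsModACMatrix M)
    (i j l : Fin n) (hij : i ≠ j) (hil : i ≠ l) (hjl : j ≠ l) (h0 : M i j = 0) :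
    ∃ c : ℝ, c ≠ 0 ∧ M j l = c * M i l := by
  obtain ⟨τ, r, h⟩ := structure_thm hM
  obtain ⟨h1, h2⟩ := h i j hij
  obtain ⟨h3, h4⟩ := h i l hil
  obtain ⟨h5, h6⟩ := h j l hjl
  have h7 : τ i = τ j := by
    rw [h0] at h2
    rcases mul_eq_zero.1 h2.symm with h8 | h8
    · exact absurd (by exact_mod_cast h8) h1
    · exact sub_eq_zero.1 h8
  refine ⟨r j l / r i l, div_ne_zero h5 h3, ?_⟩
  have h9 : (r i l : ℂ) ≠ 0 := by exact_mod_cast h3
  rw [h6, h4, h7, Complex.ofReal_div]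
  field_simp

end Pool.Agent.U548.AC
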