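import Pool.Agent.U548.AC.Defs
import Pool.Agent.R307.Tto7

/-!
# The matrix `mat n` is unitarily equivalent to the compressed shift
-/

set_option autoImplicit false

open MeasureTheory
open scoped ComplexConjugate

namespace Pool.Agent.U548.AC

open Pool.Agent.R307 Pool.Agent.R307.Tto

/-- `(1 + i) / 2` -/
noncomputable def cp : ℂ := (1 + Complex.I) / 2

/-- `(1 - i) / 2` -/
noncomputable def cm : ℂ := (1 - Complex.I) / 2

lemma conj_cp : conj cp = cm := by
  unfold cp cm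
  rw [map_div₀, map_add, map_one, Complex.conj_I, map_ofNat]
  ring

lemma conj_cm : conj cm = cp := by
  rw [← conj_cp, Complex.conj_conj]

lemma cp_sq : cp * cp = Complex.I / 2 := by
  unfold cp
  linear_combination (1 / 4) * Complex.I_mul_I

lemma cm_sq : cm * cm = -Complex.I / 2 := by
  unfold cm
  linear_combination (1 / 4) * Complex.I_mul_I

lemma cp_cm : cp * cm = 1 / 2 := by
  unfold cp cm
  linear_combination (-1 / 4) * Complex.I_mul_I

/-- the vectors `(1 - i) / 2 z^j + (1 + i) / 2 z^(n - 1 - j)` -/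
noncomputable def gg (n : ℕ) (j : Fin n) : L2 :=
  cm • ee ((j : ℕ) : ℤ) + cp • ee ((n : ℤ) - 1 - ((j : ℕ) : ℤ))

lemma gg_mem (n : ℕ) (j : Fin n) : gg n j ∈ model (ee (n : ℤ)) := by
  have h1 : ee ((j : ℕ) : ℤ) ∈ model (ee (n : ℤ)) := (mem_model_ee n _).2 fun i hi => by
    rw [ee_inner, if_neg]
    have := j.2
    omega
  have h2 : ee ((n : ℤ) - 1 - ((j : ℕ) : ℤ)) ∈ model (ee (n : ℤ)) := (mem_model_ee n _).2 fun i hi => by
    rw [ee_inner, if_neg]
    have := j.2
    omega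
  exact Submodule.add_mem _ (Submodule.smul_mem _ _ h1) (Submodule.smul_mem _ _ h2)

lemma gg_inner_gen (a b c d : ℤ) :
    inner ℂ (cm • ee a + cp • ee b) (cm • ee c + cp • ee d) =
      (if a = c then 1 / 2 else 0) + (if a = d then Complex.I / 2 else 0) +
        (if b = c then -Complex.I / 2 else 0) + (if b = d then (1 / 2 : ℂ) else 0) := by
  rw [inner_add_left, inner_add_right, inner_add_right, inner_smul_left, inner_smul_left,
    inner_smul_right, inner_smul_right, inner_smul_left, inner_smul_left, inner_smul_right,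
    inner_smul_right, ee_inner, ee_inner, ee_inner, ee_inner, conj_cm, conj_cp]
  have h1 := cp_sq
  have h2 := cm_sq
  have h3 := cp_cm
  have h4 : cm * cp = 1 / 2 := by rw [mul_comm]; exact h3
  split_ifs <;> simp only [mul_one, mul_zero, add_zero, zero_add, h1, h2, h3, h4] <;> ring

lemma gg_on (n : ℕ) (i j : Fin n) : inner ℂ (gg n i) (gg n j) = if i = j then (1 : ℂ) else 0 := by
  unfold gg
  rw [gg_inner_gen]
  have e1 : (((i : ℕ) : ℤ) = ((j : ℕ) : ℤ)) ↔ i = j := by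
    rw [Fin.ext_iff]; omega
  have e2 : ((n : ℤ) - 1 - ((i : ℕ) : ℤ) = (n : ℤ) - 1 - ((j : ℕ) : ℤ)) ↔ i = j := by
    rw [Fin.ext_iff]; omega
  have e3 : ((n : ℤ) - 1 - ((i : ℕ) : ℤ) = ((j : ℕ) : ℤ)) ↔
      (((i : ℕ) : ℤ) = (n : ℤ) - 1 - ((j : ℕ) : ℤ)) := by omega
  simp only [e1, e2, e3]
  split_ifs <;> ring

lemma gg_shift (n : ℕ) (i j : Fin n) : inner ℂ (gg n i) (zm 1 (gg n j)) = mat n i j := by
  unfold gg
  rw [zm_add, zm_smul, zm_smul, zm_ee, zm_ee, gg_inner_gen]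
  have hi := i.2
  have hj := j.2
  have e1 : (((i : ℕ) : ℤ) = 1 + ((j : ℕ) : ℤ)) ↔ (i : ℕ) = j + 1 := by omega
  have e2 : (((i : ℕ) : ℤ) = 1 + ((n : ℤ) - 1 - ((j : ℕ) : ℤ))) ↔ (i : ℕ) + j = n := by omega
  have e3 : ((n : ℤ) - 1 - ((i : ℕ) : ℤ) = 1 + ((j : ℕ) : ℤ)) ↔ (i : ℕ) + j + 2 = n := by omega
  have e4 : ((n : ℤ) - 1 - ((i : ℕ) : ℤ) = 1 + ((n : ℤ) - 1 - ((j : ℕ) : ℤ))) ↔
      (j : ℕ) = i + 1 := by omega
  simp only [e1, e2, e3, e4, mat, Matrix.of_apply]
  split_ifs <;> ring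

/-- `gg n` in the model space -/
noncomputable def gv (n : ℕ) (j : Fin n) : model (ee (n : ℤ)) := ⟨gg n j, gg_mem n j⟩

lemma gv_on (n : ℕ) : Orthonormal ℂ (gv n) := by
  rw [orthonormal_iff_ite]
  intro i j
  exact gg_on n i j

instance fd_model (n : ℕ) : FiniteDimensional ℂ (model (ee (n : ℤ))) :=
  (vb n).repr.toLinearEquiv.symm.finiteDimensional

/-- the orthonormal basis `gv n` -/
noncomputable def gb (n : ℕ) : OrthonormalBasis (Fin n) ℂ (model (ee (n : ℤ))) :=
  OrthonormalBasis.mk (gv_on n) (by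
    rw [(gv_on n).linearIndependent.span_eq_top_of_card_eq_finrank' (by
      rw [Module.finrank_eq_card_basis (vb n).toBasis])])

lemma gb_apply (n : ℕ) (j : Fin n) : gb n j = gv n j := by
  unfold gb
  rw [OrthonormalBasis.coe_mk]

/-- the operator with matrix `mat n` -/
noncomputable def opA (n : ℕ) : model (ee (n : ℤ)) →ₗ[ℂ] model (ee (n : ℤ)) :=
  (gb n).repr.symm.toLinearEquiv.toLinearMap ∘ₗ
    (Matrix.toEuclideanLin (mat n)) ∘ₗ (gb n).repr.toLinearEquiv.toLinearMap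

lemma opA_apply (n : ℕ) (f : model (ee (n : ℤ))) :
    opA n f = (gb n).repr.symm (WithLp.toLp 2 ((mat n).mulVec (WithLp.ofLp ((gb n).repr f)))) := rfl

lemma inner_opA (n : ℕ) (f : model (ee (n : ℤ))) (i : Fin n) :
    inner ℂ (gb n i) (opA n f) = ∑ j, mat n i j * (gb n).repr f j := by
  rw [opA_apply, ← OrthonormalBasis.repr_apply_apply, LinearIsometryEquiv.apply_symm_apply]
  rfl

lemma opA_tto (n : ℕ) (f g : model (ee (n : ℤ))) :
    inner ℂ (g : L2) (zm 1 (f : L2)) = (inner ℂ (g : L2) (opA n f : L2) : ℂ) := by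
  have h1 : ∀ i, inner ℂ (gg n i) (zm 1 (f : L2)) = (inner ℂ (gg n i) (opA n f : L2) : ℂ) := by
    intro i
    have h2 : inner ℂ (gg n i) (opA n f : L2) = ∑ j, mat n i j * (gb n).repr f j := by
      rw [← inner_opA, gb_apply]
      rfl
    rw [h2]
    have h3 : (f : L2) = ∑ j, (gb n).repr f j • gg n j := by
      have h4 := congrArg Subtype.val ((gb n).sum_repr f)
      rw [← h4]
      simp only [AddSubmonoidClass.coe_finset_sum, Submodule.coe_smul, gb_apply]
      rfl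
    have h5 : zm 1 (f : L2) = ∑ j, (gb n).repr f j • zm 1 (gg n j) := by
      change Zl (f : L2) = _
      conv_lhs => rw [h3]
      rw [map_sum]
      refine Finset.sum_congr rfl fun j _ => ?_
      rw [map_smul]
      rfl
    rw [h5, inner_sum]
    refine Finset.sum_congr rfl fun j _ => ?_
    rw [inner_smul_right, gg_shift, mul_comm]
  have h6 : (g : L2) = ∑ j, (gb n).repr g j • gg n j := by
    have h4 := congrArg Subtype.val ((gb n).sum_repr g)
    rw [← h4]
    simp only [AddSubmonoidClass.coe_finset_sum, Submodule.coe_smul, gb_apply]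
    rfl
  rw [h6, sum_inner, sum_inner]
  refine Finset.sum_congr rfl fun j _ => ?_
  rw [inner_smul_left, inner_smul_left, h1]

lemma tto_form (n : ℕ) (f p g : L2) (hf : f ∈ model (ee (n : ℤ))) (hg : g ∈ model (ee (n : ℤ)))
    (hp : ∀ᵐ t ∂hm, p t = ee 1 t * f t) :
    inner ℂ g p = (inner ℂ g (opA n ⟨f, hf⟩ : L2) : ℂ) := by
  have h3 : p = zm 1 f := by
    refine ext_ae _ _ ?_
    filter_upwards [hp, zm_coe 1 f, ee_coe 1] with t h1 h2 h3
    rw [h1, h2, h3]
  rw [h3]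
  exact opA_tto n ⟨f, hf⟩ ⟨g, hg⟩

open Ttz in
theorem ue (n : ℕ) (hn : 1 ≤ n) : UECompressedShift (mat n) := by
  let A : model (ee (n : ℤ)) →L[ℂ] model (ee (n : ℤ)) := LinearMap.toContinuousLinearMap (opA n)
  let L : Tto.L2 →L[ℂ] Tto.L2 :=
    (Tto.model (ee (n : ℤ))).subtypeL.comp (A.comp (Tto.model (ee (n : ℤ))).orthogonalProjectionOnto)
  have hL : ∀ f : Tto.model (ee (n : ℤ)), L (f : Tto.L2) = (A f : Tto.L2) := by
    intro f
    change ((A ((Tto.model (ee (n : ℤ))).orthogonalProjectionOnto (f : Tto.L2))) : Tto.L2) = _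
    rw [Submodule.orthogonalProjectionOnto_mem_subspace_eq_self]
  let U := (gb n).repr.symm
  refine ⟨ee (n : ℤ), ee 1, ?_, ?_, inner_ee n hn, L, ⟨⟨L, fun _ => rfl⟩, ?_, ?_⟩,
    fun x => (U x : Tto.L2), ⟨?_, ?_, ?_⟩, ?_⟩
  · have h1 : ∀ᵐ t ∂Tto.hm, ee (n : ℤ) t = zc t ^ n := by
      filter_upwards [ee_coe (n : ℤ)] with t ht
      rw [ht]
      unfold zc
      rw [fourier_one, fourier_apply, natCast_zsmul, AddCircle.toCircle_nsmul]
      simp
    exact h1
  · have h1 : ∀ᵐ t ∂Tto.hm, ee 1 t = zc t := by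
      filter_upwards [ee_coe 1] with t ht
      rw [ht]
      rfl
    exact h1
  · intro f _
    exact (A ((Tto.model (ee (n : ℤ))).orthogonalProjectionOnto f)).2
  · intro f p hf hb hp g hg
    have h2 := hL ⟨f, hf⟩
    change inner ℂ (g : Tto.L2) (p : Tto.L2) = inner ℂ (g : Tto.L2) (L f)
    rw [show L f = _ from h2]
    exact tto_form n f p g hf hg hp
  · intro x
    exact (U x).2
  · intro f hf
    obtain ⟨x, hx⟩ := U.surjective ⟨f, hf⟩
    exact ⟨x, congrArg Subtype.val hx⟩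
  · intro x y
    exact U.inner_map_map x y
  · intro x
    change ((U (WithLp.toLp 2 ((mat n).mulVec (WithLp.ofLp x)))) : Tto.L2) = L (U x : Tto.L2)
    rw [hL]
    change _ = ((opA n (U x) : model (ee (n : ℤ))) : Tto.L2)
    rw [opA_apply, LinearIsometryEquiv.apply_symm_apply]

end Pool.Agent.U548.AC
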